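import Pool.Agent.W275.UB.Den

/-! UB project (helper275), part UB-NEWTON (helper930): Newton's method. -/

set_option autoImplicit false

namespace Pool.Agent.W930.UB

open MvPolynomial Pool.Agent.W275.UB

variable {R ι : Type} [CommRing R]

/-- no terms of degree at most `k` -/
def Lo (k : ℕ) (h : MvPolynomial ι R) : Prop := ∀ μ : ι →₀ ℕ, μ.degree ≤ k → coeff μ h = 0

theorem Lo.mul {k l : ℕ} {a b : MvPolynomial ι R} (ha : Lo k a) (hb : Lo l b) :
    Lo (k + l + 1) (a * b) := by
  classical
  intro μ hμ
  rw [coeff_mul]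
  refine Finset.sum_eq_zero fun x hx => ?_
  have h1 : x.1.degree + x.2.degree = μ.degree := by
    rw [← Finset.HasAntidiagonal.mem_antidiagonal.1 hx, map_add]
  rcases Nat.lt_or_ge k x.1.degree with h | h
  · rw [hb x.2 (by omega), mul_zero]
  · rw [ha x.1 h, zero_mul]

theorem Lo.mul_left {k : ℕ} (a : MvPolynomial ι R) {b : MvPolynomial ι R} (hb : Lo k b) :
    Lo k (a * b) := by
  classical
  intro μ hμ
  rw [coeff_mul]
  refine Finset.sum_eq_zero fun x hx => ?_
  have h1 : x.1.degree + x.2.degree = μ.degree := by
    rw [← Finset.HasAntidiagonal.mem_antidiagonal.1 hx, map_add]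
  rw [hb x.2 (by omega), mul_zero]

theorem Lo.mono {k l : ℕ} (h : l ≤ k) {a : MvPolynomial ι R} (ha : Lo k a) : Lo l a :=
  fun μ hμ => ha μ (hμ.trans h)

theorem cc_eval (P : Polynomial (MvPolynomial ι R)) (q : MvPolynomial ι R) :
    constantCoeff (P.eval q) = (P.map constantCoeff).eval (constantCoeff q) := by
  rw [Polynomial.eval_map, ← Polynomial.eval₂_id, Polynomial.hom_eval₂, RingHom.comp_id]

theorem main : S_newton := by
  intro R ι _ _ P τ hτ hu k
  classical
  obtain ⟨δ, hδ⟩ := hu.exists_right_inv
  induction k with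
  | zero =>
    refine ⟨C τ, constantCoeff_C _ _, by rw [totalDegree_C], fun μ hμ => ?_⟩
    have h0 : μ = 0 := by
      rw [← Finsupp.degree_eq_zero_iff]; omega
    rw [h0, ← constantCoeff_eq, cc_eval, constantCoeff_C]
    exact hτ
  | succ k ih =>
    obtain ⟨q, hq0, hqd, hq⟩ := ih
    set h := P.eval q with hh
    set x : MvPolynomial ι R := -(C δ * homogeneousComponent (k + 1) h) with hx
    have hcx : ∀ μ, coeff μ x = if μ.degree = k + 1 then -(δ * coeff μ h) else 0 := by
      intro μ
      rw [hx, coeff_neg, coeff_C_mul, coeff_homogeneousComponent]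
      split_ifs
      · rfl
      · rw [mul_zero, neg_zero]
    have hxL : Lo k x := by
      intro μ hμ
      rw [hcx, if_neg (by omega)]
    refine ⟨q + x, ?_, ?_, ?_⟩
    · rw [map_add, hq0, constantCoeff_eq, hcx, if_neg, add_zero]
      rw [map_zero]; omega
    · refine (totalDegree_add _ _).trans (max_le (hqd.trans (Nat.le_succ k)) ?_)
      rw [hx, totalDegree_neg]
      refine (totalDegree_mul _ _).trans ?_
      rw [totalDegree_C, zero_add]
      exact (homogeneousComponent_isHomogeneous (k + 1) h).totalDegree_le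
    · intro μ hμ
      obtain ⟨K, hK⟩ := P.binomExpansion q x
      rw [hK, coeff_add, coeff_add, ← hh]
      have h1 : coeff μ (K * x ^ 2) = 0 := by
        rw [sq]
        exact Lo.mul_left K ((hxL.mul hxL).mono (l := k + 1) (by omega)) μ hμ
      set D := (Polynomial.derivative P).eval q with hD
      set γ := ((Polynomial.derivative P).map constantCoeff).eval τ with hγ
      have hD0 : constantCoeff D = γ := by rw [hD, cc_eval, hq0]
      have hw : Lo 0 (D - C γ) := by
        intro ν hν
        have h0 : ν = 0 := by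
          rw [← Finsupp.degree_eq_zero_iff]; omega
        rw [h0, coeff_sub, ← constantCoeff_eq, hD0, constantCoeff_C, sub_self]
      have h2 : coeff μ (D * x) = γ * coeff μ x := by
        have h3 : D * x = (D - C γ) * x + C γ * x := by ring
        rw [h3, coeff_add, (hw.mul hxL).mono (l := k + 1) (by omega) μ hμ, zero_add, coeff_C_mul]
      rw [h1, h2, hcx, add_zero]
      split_ifs with h4
      · have : coeff μ h + γ * -(δ * coeff μ h) = (1 - γ * δ) * coeff μ h := by ring
        rw [this, hδ, sub_self, zero_mul]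
      · rw [hq μ (by omega), mul_zero, add_zero]

end Pool.Agent.W930.UB
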